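import Pool.Agent.H104.BS.B
import Pool.Agent.H104.MC.Cov
import Pool.Agent.Q123.VP.F

/-!
# Covering an improper convex progression by translates of a proper progression
-/

set_option autoImplicit false

namespace Pool.Agent.Q221.GP

open Finset Pool.Agent.Y806.DF Q123.VP H104.BS H104.MC
open scoped Pointwise

variable {n : ℕ} {Γ : Type*} [AddCommGroup Γ]

theorem map_lin {k : ℕ} (ψ : (Fin n → ℤ) →+ Γ) (w : Fin k → (Fin n → ℤ)) (a : Fin k → ℤ) :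
    ψ (lin w a) = ∑ i, a i • ψ (w i) := by
  have h1 : ψ (lin w a) = ψ (∑ i, a i • w i) := rfl
  rw [h1, map_sum]
  exact Finset.sum_congr rfl fun i _ => map_zsmul ψ _ _

theorem cst_le {k : ℕ} (hk : k ≤ n) :
    ((4 ^ n * (4 * k ^ 3) ^ k) * 2 ^ k : ℕ) ≤ (32 * (n + 1) ^ 3) ^ n := by
  have h13 : 1 ≤ (n + 1) ^ 3 := Nat.one_le_pow _ _ (by omega)
  have hk3 : k ^ 3 ≤ (n + 1) ^ 3 := Nat.pow_le_pow_left (by omega) 3
  calc (4 ^ n * (4 * k ^ 3) ^ k) * 2 ^ k ≤ (4 ^ n * (4 * (n + 1) ^ 3) ^ n) * 2 ^ n := by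
        refine Nat.mul_le_mul (Nat.mul_le_mul_left _ ?_) (Nat.pow_le_pow_right (by norm_num) hk)
        exact (Nat.pow_le_pow_left (by omega) _).trans (Nat.pow_le_pow_right (by omega) hk)
    _ = (32 * (n + 1) ^ 3) ^ n := by
        rw [← mul_pow, ← mul_pow]
        congr 1
        ring

/-- **An improper convex progression is covered by few translates of a proper progression.** -/
theorem prog_cover [DecidableEq Γ] {B : Set (Fin n → ℝ)} (hB : Body B) (ψ : (Fin n → ℤ) →+ Γ)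
    {N : ℝ} (hN : 1 ≤ N) :
    ∃ (k : ℕ) (v : Fin k → Γ) (L : Fin k → ℕ) (F : Finset Γ), k ≤ n ∧
      (∀ a b : Fin k → ℤ, (∀ i, |a i| ≤ L i) → (∀ i, |b i| ≤ L i) →
        ∑ i, a i • v i = ∑ i, b i • v i → a = b) ∧
      ((∏ i, (2 * L i + 1) : ℕ) : ℝ) ≤ N ∧
      (F.card : ℝ) ≤ (6400000000 * ((n : ℝ) + 1) ^ 3) ^ n *
        max 1 (((fun x => ψ x) '' lat B).ncard / N) ∧
      ∀ x ∈ lat B, ∃ f ∈ F, ∃ a : Fin k → ℤ, (∀ i, |a i| ≤ L i) ∧ ψ x = f + ∑ i, a i • v i := by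
  have hbot : Nat.card (⊥ : AddSubgroup Γ) = 1 := by simp
  have himg : img ψ ⊥ (lat B) = (fun x => ψ x) '' lat B := by
    ext g
    constructor
    · rintro ⟨x, hx, h, hh, rfl⟩
      rw [AddSubgroup.mem_bot] at hh
      exact ⟨x, hx, by rw [hh, add_zero]⟩
    · rintro ⟨x, hx, rfl⟩
      exact ⟨x, hx, 0, AddSubgroup.zero_mem _, (add_zero _).symm⟩
  obtain ⟨B', F₁, hB', hinj, hvol, hF₁, hcov₁⟩ := conv_cover hB ψ ⊥ (N := N) (by
    rw [hbot, Nat.cast_one]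
    exact hN)
  rw [hbot, Nat.cast_one, mul_one] at hvol
  rw [himg] at hF₁
  obtain ⟨k, w, L, hk, hw, hin, hc⟩ := john_body hB'
  obtain ⟨F₂, hF₂, hcov₂⟩ := john_cover hB' hw hin hc
  obtain ⟨E, hE, hcov₃⟩ := bx_double L
  have hinj' : ∀ x ∈ lat B', ∀ y ∈ lat B', ψ x = ψ y → x = y := by
    intro x hx y hy hxy
    have h6 : ((x, 0) : (Fin n → ℤ) × Γ) = (y, 0) := by
      refine hinj ⟨hx, AddSubgroup.zero_mem _⟩ ⟨hy, AddSubgroup.zero_mem _⟩ ?_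
      show ψ x + 0 = ψ y + 0
      rw [hxy]
    exact congrArg Prod.fst h6
  refine ⟨k, fun i => ψ (w i), L,
    (F₁ ×ˢ (F₂ ×ˢ E)).image (fun p => p.1 + (ψ p.2.1 + ψ (lin w p.2.2))), hk, ?_, ?_, ?_, ?_⟩
  · intro a b ha hb hab
    rw [← map_lin, ← map_lin] at hab
    exact lin_inj hw (hinj' _ (hin a ha) _ (hin b hb) hab)
  · rw [← bx_ncard]
    refine le_trans ?_ hvol
    have hsub : (lin w) '' bx L ⊆ lat B' := by
      rintro _ ⟨a, ha, rfl⟩
      exact hin a ha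
    have h1 := Set.ncard_le_ncard hsub (lat_finite hB'.2.1.isBounded)
    rw [Set.ncard_image_of_injective _ (lin_inj hw)] at h1
    exact_mod_cast h1
  · have h1 : (((F₁ ×ˢ (F₂ ×ˢ E)).image
        (fun p => p.1 + (ψ p.2.1 + ψ (lin w p.2.2)))).card : ℝ) ≤
        (F₁.card : ℝ) * ((F₂.card * E.card : ℕ) : ℝ) := by
      have h2 := card_image_le (s := F₁ ×ˢ (F₂ ×ˢ E))
        (f := fun p => p.1 + (ψ p.2.1 + ψ (lin w p.2.2)))
      rw [card_product, card_product] at h2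
      exact_mod_cast h2
    have h3 : F₂.card * E.card ≤ (32 * (n + 1) ^ 3) ^ n :=
      (Nat.mul_le_mul hF₂ hE).trans (cst_le hk)
    have h4 : ((F₂.card * E.card : ℕ) : ℝ) ≤ (32 * ((n : ℝ) + 1) ^ 3) ^ n := by
      exact_mod_cast h3
    have h5 : 0 ≤ (2 * 10 ^ 8 : ℝ) ^ n * max 1 (((fun x => ψ x) '' lat B).ncard / N) := by
      positivity
    calc (((F₁ ×ˢ (F₂ ×ˢ E)).image
        (fun p => p.1 + (ψ p.2.1 + ψ (lin w p.2.2)))).card : ℝ)
        ≤ (F₁.card : ℝ) * ((F₂.card * E.card : ℕ) : ℝ) := h1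
      _ ≤ ((2 * 10 ^ 8 : ℝ) ^ n * max 1 (((fun x => ψ x) '' lat B).ncard / N)) *
          (32 * ((n : ℝ) + 1) ^ 3) ^ n := mul_le_mul hF₁ h4 (Nat.cast_nonneg _) h5
      _ = ((2 * 10 ^ 8 : ℝ) ^ n * (32 * ((n : ℝ) + 1) ^ 3) ^ n) *
          max 1 (((fun x => ψ x) '' lat B).ncard / N) := by ring
      _ = _ := by
          rw [← mul_pow]
          congr 2
          ring
  · intro x hx
    obtain ⟨f, hf, y, hy, h, hh, e⟩ := hcov₁ (ψ x) (by rw [himg]; exact ⟨x, hx, rfl⟩)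
    rw [AddSubgroup.mem_bot] at hh
    subst hh
    rw [add_zero] at e
    obtain ⟨f₂, hf₂, b, hb, e₂⟩ := hcov₂ y hy
    obtain ⟨g, hg, a, ha, e₃⟩ := hcov₃ b (fun i => by
      have := hb i
      push_cast at this
      exact this)
    refine ⟨f + (ψ f₂ + ψ (lin w g)), ?_, a, ha, ?_⟩
    · exact mem_image.2 ⟨(f, (f₂, g)), mk_mem_product hf (mk_mem_product hf₂ hg), rfl⟩
    · rw [← map_lin, e, e₂, map_add, e₃, map_add, map_add]
      abel

end Pool.Agent.Q221.GP
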