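import Pool.Agent.Q123.VP.F
import Pool.Agent.Q297.IT.Sharp

/-!
# Sets of integers which are not covered by few progressions of smaller rank, proper or not
-/

set_option autoImplicit false

namespace Pool.Agent.Q221.GP

open Finset Pool.Agent.Y806.DF Q123.VP Pool.Agent.TH513.IS
open scoped Pointwise

/-- The homomorphism with given values on the basis. -/
def homv {r : ℕ} (v : Fin r → ℤ) : (Fin r → ℤ) →+ ℤ where
  toFun x := ∑ i, x i * v i
  map_zero' := by simp
  map_add' x y := by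
    rw [← sum_add_distrib]
    exact sum_congr rfl fun i _ => by rw [Pi.add_apply, add_mul]

/-- The elements of the progression `{∑ n_i v_i : 0 ≤ n_i < N_i}`. -/
def prog {Γ : Type*} [AddCommGroup Γ] {r : ℕ} (v : Fin r → Γ) (N : Fin r → ℕ) : Set Γ :=
  {x | ∃ n : Fin r → ℕ, (∀ i, n i < N i) ∧ x = ∑ i, n i • v i}

theorem homv_nat {r : ℕ} (v : Fin r → ℤ) (n : Fin r → ℕ) :
    homv v (fun i => (n i : ℤ)) = ∑ i, n i • v i := by
  show ∑ i, (n i : ℤ) * v i = _
  exact sum_congr rfl fun i _ => by rw [nsmul_eq_mul]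

/-- The symmetric progression has at most `2 ^ r` times as many elements. -/
theorem sym_le {r : ℕ} (v : Fin r → ℤ) {N : Fin r → ℕ} (hN : ∀ i, 1 ≤ N i) :
    (img (homv v) ⊥ (bx fun i => N i - 1)).ncard ≤ 2 ^ r * (prog v N).ncard := by
  classical
  obtain ⟨S, hS⟩ : ∃ S : Set (Fin r → ℤ), S = {x : Fin r → ℤ | ∀ i, 0 ≤ x i ∧ x i < (N i : ℤ)} :=
    ⟨_, rfl⟩
  have hSfin : S.Finite := by
    have h : S ⊆ Set.Icc (fun _ => 0) (fun i => (N i : ℤ)) := by
      intro x hx
      rw [hS] at hx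
      exact ⟨fun i => (hx i).1, fun i => (hx i).2.le⟩
    exact (Set.finite_Icc _ _).subset h
  have himg : img (homv v) ⊥ S = prog v N := by
    ext g
    constructor
    · rintro ⟨x, hx, h, hh, rfl⟩
      rw [AddSubgroup.mem_bot] at hh
      rw [hS] at hx
      refine ⟨fun i => (x i).toNat, fun i => ?_, ?_⟩
      · have := hx i
        show (x i).toNat < N i
        omega
      · rw [hh, add_zero, ← homv_nat]
        congr 1
        funext i
        have := (hx i).1
        omega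
    · rintro ⟨n, hn, rfl⟩
      refine ⟨fun i => (n i : ℤ), ?_, 0, AddSubgroup.zero_mem _, ?_⟩
      · rw [hS]
        intro i
        have := hn i
        show 0 ≤ (n i : ℤ) ∧ (n i : ℤ) < N i
        omega
      · rw [homv_nat, add_zero]
  rw [← himg]
  obtain ⟨F, hF⟩ : ∃ F : Finset (Fin r → ℤ),
      F = Fintype.piFinset fun i => ({0, -(((N i - 1 : ℕ) : ℤ))} : Finset ℤ) := ⟨_, rfl⟩
  have hFc : F.card ≤ 2 ^ r := by
    rw [hF, Fintype.card_piFinset]
    calc ∏ i, (({0, -(((N i - 1 : ℕ) : ℤ))} : Finset ℤ)).card ≤ ∏ _i : Fin r, 2 :=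
          prod_le_prod' fun i _ => card_le_two
      _ = 2 ^ r := by simp
  refine (ncard_le_translates (homv v) ⊥ hSfin F fun x hx => ?_).trans
    (Nat.mul_le_mul_right _ hFc)
  refine ⟨fun i => if 0 ≤ x i then 0 else -(((N i - 1 : ℕ) : ℤ)), ?_,
    fun i => if 0 ≤ x i then x i else x i + ((N i - 1 : ℕ) : ℤ), ?_, ?_⟩
  · rw [hF, Fintype.mem_piFinset]
    intro i
    split_ifs <;> simp
  · rw [hS]
    intro i
    have h1 : -(((N i - 1 : ℕ) : ℤ)) ≤ x i ∧ x i ≤ ((N i - 1 : ℕ) : ℤ) := abs_le.1 (hx i)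
    have h2 := hN i
    show 0 ≤ (if 0 ≤ x i then x i else x i + ((N i - 1 : ℕ) : ℤ)) ∧
      (if 0 ≤ x i then x i else x i + ((N i - 1 : ℕ) : ℤ)) < N i
    split_ifs with h3
    · omega
    · omega
  · funext i
    show x i = (if 0 ≤ x i then 0 else -(((N i - 1 : ℕ) : ℤ))) +
      (if 0 ≤ x i then x i else x i + ((N i - 1 : ℕ) : ℤ))
    split_ifs with h3
    · omega
    · omega

/-- **Sharpness of the rank, in `ℤ`.** -/
theorem lower (n d M : ℕ) (hn : 1 ≤ n) :
    ∃ A : Finset ℤ, A.Nonempty ∧ (sm A n).card ≤ n ^ d * A.card ∧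
      ∀ r < d, ∀ (v : Fin r → ℤ) (N : Fin r → ℕ), (prog v N).ncard ≤ M * A.card →
        ∀ T : Finset ℤ, (∀ a ∈ A, ∃ t ∈ T, ∃ m : Fin r → ℕ, (∀ i, m i < N i) ∧
          a = t + ∑ i, m i • v i) → M < T.card := by
  classical
  obtain ⟨M', hM'⟩ : ∃ M' : ℕ, M' = M * (393216 ^ d * (M + 1)) + 1 := ⟨_, rfl⟩
  obtain ⟨A, hA, hA2, h⟩ := Pool.Agent.Q297.IT.sharp_int n d M' hn
  refine ⟨A, hA, hA2, fun r hr v N hP T hcov => ?_⟩
  by_contra hcon
  rw [not_lt] at hcon
  have hN : ∀ i, 1 ≤ N i := by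
    intro i
    obtain ⟨a, ha⟩ := hA
    obtain ⟨t, _, m, hm, _⟩ := hcov a ha
    have := hm i
    omega
  have hApos : 0 < A.card := hA.card_pos
  have hAR : (1 : ℝ) ≤ A.card := by exact_mod_cast hApos
  have hbot : Nat.card (⊥ : AddSubgroup ℤ) = 1 := by simp
  obtain ⟨B, F, hB, _, hvol, hF, hFcov⟩ := box_cover (fun i => N i - 1) (homv v) ⊥
    (N := (A.card : ℝ)) (by rw [hbot, Nat.cast_one]; exact hAR)
  rw [hbot, Nat.cast_one, mul_one] at hvol
  have hvol' : (lat B).ncard ≤ A.card := by exact_mod_cast hvol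
  have hsym := sym_le v hN
  have h1 : ((img (homv v) ⊥ (bx fun i => N i - 1)).ncard : ℝ) / A.card ≤ 2 ^ r * M := by
    rw [div_le_iff₀ (by linarith)]
    have h2 : (img (homv v) ⊥ (bx fun i => N i - 1)).ncard ≤ 2 ^ r * (M * A.card) :=
      hsym.trans (Nat.mul_le_mul_left _ hP)
    calc ((img (homv v) ⊥ (bx fun i => N i - 1)).ncard : ℝ) ≤ ((2 ^ r * (M * A.card) : ℕ) : ℝ) := by
          exact_mod_cast h2
      _ = _ := by push_cast; ring
  have hFc : (F.card : ℝ) ≤ 393216 ^ d * (M + 1) := by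
    have h2 : max 1 (((img (homv v) ⊥ (bx fun i => N i - 1)).ncard : ℝ) / A.card) ≤
        2 ^ r * (M + 1) := by
      refine max_le ?_ ?_
      · have h3 : (1 : ℝ) ≤ 2 ^ r := one_le_pow₀ (by norm_num)
        have h4 : (0 : ℝ) ≤ M := Nat.cast_nonneg M
        nlinarith
      · refine h1.trans ?_
        have h3 : (0 : ℝ) < 2 ^ r := by positivity
        nlinarith
    calc (F.card : ℝ) ≤ 196608 ^ r *
          max 1 (((img (homv v) ⊥ (bx fun i => N i - 1)).ncard : ℝ) / A.card) := hF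
      _ ≤ 196608 ^ r * (2 ^ r * (M + 1)) := mul_le_mul_of_nonneg_left h2 (by positivity)
      _ = 393216 ^ r * (M + 1) := by rw [← mul_assoc, ← mul_pow]; norm_num
      _ ≤ 393216 ^ d * (M + 1) := by
          refine mul_le_mul_of_nonneg_right ?_ (by positivity)
          exact pow_le_pow_right₀ (by norm_num) hr.le
  have hFn : F.card ≤ 393216 ^ d * (M + 1) := by exact_mod_cast hFc
  have hlt := h r hr B hB.1 hB.2.1 hB.2.2.2 (hvol'.trans (by
    rw [hM']
    exact Nat.le_mul_of_pos_left _ (by omega))) (homv v) ((T ×ˢ F).image fun p => p.1 + p.2) (by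
      intro a ha
      obtain ⟨t, ht, m, hm, e⟩ := hcov a ha
      obtain ⟨f, hf, w, hw, z, hz, e'⟩ := hFcov (∑ i, m i • v i)
        ⟨fun i => (m i : ℤ), fun i => by
          have h3 := hm i
          rw [abs_le]
          show -(((N i - 1 : ℕ) : ℤ)) ≤ (m i : ℤ) ∧ (m i : ℤ) ≤ ((N i - 1 : ℕ) : ℤ)
          omega, 0, AddSubgroup.zero_mem _, by rw [homv_nat, add_zero]⟩
      rw [AddSubgroup.mem_bot] at hz
      refine ⟨t + f, mem_image.2 ⟨(t, f), mk_mem_product ht hf, rfl⟩, w, hw, ?_⟩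
      rw [e, e', hz, add_zero, add_assoc])
  have h5 : ((T ×ˢ F).image fun p => p.1 + p.2).card ≤ M * (393216 ^ d * (M + 1)) := by
    refine card_image_le.trans ?_
    rw [card_product]
    exact Nat.mul_le_mul hcon hFn
  omega

end Pool.Agent.Q221.GP
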