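import Mathlib

/-!
# Estimates for the number of translates
-/

set_option autoImplicit false

namespace Pool.Agent.Q221.GP

open Real

/-- The dimension is at most `1 + 4 ℓ / log m`. -/
theorem dim_le {ε : ℝ} (h0 : 0 < ε) (h1 : ε ≤ 1) {m : ℕ} (hm : 2 ≤ m) {L : ℝ} (hL : 1 ≤ L) {d : ℝ}
    (hd : d ≤ max 1 ((1 + ε) * (Real.logb 2 L / (Nat.log 2 m : ℝ)) + ε)) :
    d ≤ 1 + 4 * (Real.log (2 * L) / Real.log m) := by
  have hlog2 : 0 < Real.log 2 := Real.log_pos (by norm_num)
  have hJ1 : 1 ≤ Nat.log 2 m := Nat.log_pos (by norm_num) hm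
  have hJR : (1 : ℝ) ≤ (Nat.log 2 m : ℝ) := by exact_mod_cast hJ1
  obtain ⟨J, hJ⟩ : ∃ J : ℝ, J = (Nat.log 2 m : ℝ) := ⟨_, rfl⟩
  have hmR : (2 : ℝ) ≤ m := by exact_mod_cast hm
  have hlogm : 0 < Real.log m := Real.log_pos (by linarith)
  have hmlt : (m : ℝ) ≤ 2 ^ (Nat.log 2 m + 1) := by
    have := (Nat.lt_pow_succ_log_self (b := 2) (by norm_num) m).le
    exact_mod_cast this
  have h2 : Real.log m ≤ 2 * (J * Real.log 2) := by
    have h3 := Real.log_le_log (by linarith) hmlt
    rw [Real.log_pow] at h3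
    push_cast at h3
    rw [← hJ] at h3 hJR
    nlinarith
  rw [← hJ] at hd hJR
  have hlogL : 0 ≤ Real.log L := Real.log_nonneg hL
  have hlogL2 : Real.log L ≤ Real.log (2 * L) := Real.log_le_log (by linarith) (by linarith)
  have hx : Real.logb 2 L / J = Real.log L / (J * Real.log 2) := by
    rw [Real.logb, div_div, mul_comm J]
  have hx0 : 0 ≤ Real.logb 2 L / J := by
    rw [hx]
    exact div_nonneg hlogL (by nlinarith)
  have hx1 : Real.logb 2 L / J ≤ 2 * (Real.log (2 * L) / Real.log m) := by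
    rw [hx, ← mul_div_assoc, div_le_div_iff₀ (by nlinarith) hlogm]
    calc Real.log L * Real.log m ≤ Real.log (2 * L) * (2 * (J * Real.log 2)) :=
          mul_le_mul hlogL2 h2 hlogm.le (by linarith)
      _ = 2 * Real.log (2 * L) * (J * Real.log 2) := by ring
  refine hd.trans (max_le ?_ ?_)
  · have : 0 ≤ Real.log (2 * L) / Real.log m := div_nonneg (by linarith) hlogm.le
    linarith
  · have h5 : (1 + ε) * (Real.logb 2 L / J) ≤ 2 * (Real.logb 2 L / J) :=
      mul_le_mul_of_nonneg_right (by linarith) hx0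
    linarith

/-- The loss in the passage to a proper progression. -/
theorem loss_le {m : ℕ} (hm : 2 ≤ m) {L : ℝ} (hL : 1 ≤ L) {d : ℕ} {c : ℝ} (hc1 : 4 ≤ c)
    (hd : (d : ℝ) ≤ c * (1 + Real.log (2 * L) / Real.log m)) :
    (6400000000 * ((d : ℝ) + 1) ^ 3) ^ d ≤
      (2 * L) ^ (c * (100 + 9 * Real.log c) *
        (1 + Real.log (1 + Real.log (2 * L)) / Real.log m)) := by
  have hlog2 := Real.log_two_gt_d9
  have hlog2' := Real.log_two_lt_d9
  obtain ⟨l, hl⟩ : ∃ l : ℝ, l = Real.log (2 * L) := ⟨_, rfl⟩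
  have hl1 : (0.69 : ℝ) ≤ l := by
    have h1 : Real.log 2 ≤ l := by
      rw [hl]; exact Real.log_le_log (by norm_num) (by linarith)
    linarith
  rw [← hl] at hd ⊢
  obtain ⟨lam, hlam⟩ : ∃ lam : ℝ, lam = Real.log (1 + l) := ⟨_, rfl⟩
  rw [← hlam]
  have hlam0 : 0 ≤ lam := by rw [hlam]; exact Real.log_nonneg (by linarith)
  have hlam1 : lam ≤ l := by
    rw [hlam]
    have := Real.log_le_sub_one_of_pos (show 0 < 1 + l by linarith)
    linarith
  have hmR : (2 : ℝ) ≤ m := by exact_mod_cast hm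
  obtain ⟨M, hM⟩ : ∃ M : ℝ, M = Real.log m := ⟨_, rfl⟩
  have hM1 : (0.69 : ℝ) ≤ M := by
    have : Real.log 2 ≤ M := by rw [hM]; exact Real.log_le_log (by norm_num) hmR
    linarith
  rw [← hM] at hd ⊢
  have hM0 : 0 < M := by linarith
  obtain ⟨u, hu⟩ : ∃ u : ℝ, u = l / M := ⟨_, rfl⟩
  have hu0 : 0 ≤ u := by rw [hu]; positivity
  have hu1 : u ≤ 1.45 * l := by
    rw [hu, div_le_iff₀ hM0]
    nlinarith
  rw [← hu] at hd
  have hlogc : 0 ≤ Real.log c := Real.log_nonneg (by linarith)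
  have hd0 : (0 : ℝ) ≤ d := Nat.cast_nonneg d
  -- the logarithm of the base
  have hb : Real.log (6400000000 * ((d : ℝ) + 1) ^ 3) ≤ 25 + 3 * Real.log c + 3 * lam := by
    have h1 : (0 : ℝ) < (d : ℝ) + 1 := by linarith
    rw [Real.log_mul (by norm_num) (by positivity), Real.log_pow]
    have h2 : Real.log 6400000000 ≤ 22.9 := by
      have h3 : Real.log 6400000000 ≤ Real.log ((2 : ℝ) ^ 33) :=
        Real.log_le_log (by norm_num) (by norm_num)
      rw [Real.log_pow] at h3
      push_cast at h3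
      linarith
    have h4 : (d : ℝ) + 1 ≤ 2 * (c * (1 + l)) := by
      have h5 : c * (1 + u) ≤ c * (1 + 1.45 * l) :=
        mul_le_mul_of_nonneg_left (by linarith) (by linarith)
      nlinarith
    have h6 : Real.log ((d : ℝ) + 1) ≤ Real.log 2 + (Real.log c + lam) := by
      have h7 := Real.log_le_log h1 h4
      rwa [Real.log_mul (by norm_num) (by positivity), Real.log_mul (by positivity) (by positivity),
        ← hlam] at h7
    push_cast
    linarith
  have hbpos : (0 : ℝ) < 6400000000 * ((d : ℝ) + 1) ^ 3 := by positivity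
  have h2L : (0 : ℝ) < 2 * L := by linarith
  have hfin : (d : ℝ) * Real.log (6400000000 * ((d : ℝ) + 1) ^ 3) ≤
      l * (c * (100 + 9 * Real.log c) * (1 + lam / M)) := by
    have h1 : (d : ℝ) * Real.log (6400000000 * ((d : ℝ) + 1) ^ 3) ≤
        (c * (1 + u)) * (25 + 3 * Real.log c + 3 * lam) := by
      have h2 : 0 ≤ 25 + 3 * Real.log c + 3 * lam := by positivity
      calc (d : ℝ) * Real.log (6400000000 * ((d : ℝ) + 1) ^ 3)
          ≤ d * (25 + 3 * Real.log c + 3 * lam) := mul_le_mul_of_nonneg_left hb hd0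
        _ ≤ _ := mul_le_mul_of_nonneg_right hd h2
    have hul : u * lam = l * (lam / M) := by rw [hu]; ring
    have hlm : 0 ≤ lam / M := by positivity
    have h3 : (1 + u) * (25 + 3 * Real.log c + 3 * lam) ≤
        l * ((100 + 9 * Real.log c) * (1 + lam / M)) := by
      have h4 : (1 + u) ≤ 2.9 * l + 0 := by nlinarith
      have h5 : (1 + u) * (25 + 3 * Real.log c) ≤ 2.95 * l * (25 + 3 * Real.log c) := by
        refine mul_le_mul_of_nonneg_right ?_ (by positivity)
        nlinarith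
      have h6 : (1 + u) * (3 * lam) ≤ 3 * l + 3 * (l * (lam / M)) := by
        rw [← hul]; nlinarith
      have h7 : 0 ≤ l * (lam / M) := by positivity
      have h8 : 0 ≤ l * Real.log c := by positivity
      have h9 : 0 ≤ l * (lam / M) * Real.log c := by positivity
      nlinarith
    calc (d : ℝ) * Real.log (6400000000 * ((d : ℝ) + 1) ^ 3)
        ≤ (c * (1 + u)) * (25 + 3 * Real.log c + 3 * lam) := h1
      _ = c * ((1 + u) * (25 + 3 * Real.log c + 3 * lam)) := by ring
      _ ≤ c * (l * ((100 + 9 * Real.log c) * (1 + lam / M))) :=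
          mul_le_mul_of_nonneg_left h3 (by linarith)
      _ = _ := by ring
  rw [Real.rpow_def_of_pos h2L, ← hl, ← Real.exp_log (pow_pos hbpos d), Real.log_pow]
  exact Real.exp_le_exp.2 hfin

end Pool.Agent.Q221.GP
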