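import Pool.Agent.Q221.GP.Cover
import Pool.Agent.Q221.GP.Num
import Pool.Agent.Q297.IT.Main
import Pool.Agent.Q297.IT.Sharp

/-!
# Iterated sumsets and proper progressions of the sharp rank
-/

set_option autoImplicit false

namespace Pool.Agent.Q221.GP

open Finset Pool.Agent.Y806.DF Q123.VP Pool.Agent.TH513.IS
open scoped Pointwise

universe u

/-- A family of translates of a symmetric proper progression which covers `A`, in the form
`{∑ n_i v_i : 0 ≤ n_i < N_i}`. -/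
theorem to_nat {Γ : Type*} [AddCommGroup Γ] [DecidableEq Γ] {k : ℕ} (v : Fin k → Γ)
    (L : Fin k → ℕ)
    (hprop : ∀ a b : Fin k → ℤ, (∀ i, |a i| ≤ L i) → (∀ i, |b i| ≤ L i) →
      ∑ i, a i • v i = ∑ i, b i • v i → a = b) :
    (∀ m n : Fin k → ℕ, (∀ i, m i < 2 * L i + 1) → (∀ i, n i < 2 * L i + 1) →
      ∑ i, m i • v i = ∑ i, n i • v i → m = n) ∧
    ∀ (t : Γ) (c : Fin k → ℤ), (∀ i, |c i| ≤ L i) → ∃ n : Fin k → ℕ, (∀ i, n i < 2 * L i + 1) ∧
      t + ∑ i, c i • v i = (t - ∑ i, L i • v i) + ∑ i, n i • v i := by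
  have hshift : ∀ m : Fin k → ℕ, ∑ i, m i • v i =
      ∑ i, ((m i : ℤ) - L i) • v i + ∑ i, (L i) • v i := by
    intro m
    rw [← Finset.sum_add_distrib]
    apply Finset.sum_congr rfl
    intro i _
    rw [sub_smul, natCast_zsmul, natCast_zsmul, sub_add_cancel]
  refine ⟨?_, ?_⟩
  · intro m n hm hn h
    rw [hshift m, hshift n] at h
    have h2 := hprop (fun i => (m i : ℤ) - L i) (fun i => (n i : ℤ) - L i)
      (fun i => by
        have h5 := hm i
        rw [abs_le]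
        omega)
      (fun i => by
        have h5 := hn i
        rw [abs_le]
        omega) (add_right_cancel h)
    funext i
    have h3 : ((m i : ℤ) - L i) = (n i : ℤ) - L i := congrFun h2 i
    omega
  · intro t c hc
    refine ⟨fun i => (c i + L i).toNat, fun i => ?_, ?_⟩
    · have := abs_le.1 (hc i)
      show (c i + L i).toNat < 2 * L i + 1
      omega
    · have h1 : ∀ i, (((c i + L i).toNat : ℕ) : ℤ) - L i = c i := by
        intro i
        have := abs_le.1 (hc i)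
        omega
      have h2 : ∑ i, ((((c i + L i).toNat : ℕ) : ℤ) - L i) • v i = ∑ i, c i • v i :=
        Finset.sum_congr rfl fun i _ => by rw [h1]
      rw [hshift (fun i => (c i + L i).toNat), h2]
      abel

/-- The covering by translates of a proper progression, from a covering by translates of a convex
progression. -/
theorem cover_nat {Γ : Type*} [AddCommGroup Γ] [DecidableEq Γ] {d : ℕ} {B : Set (Fin d → ℝ)}
    (hB : Body B) (ψ : (Fin d → ℤ) →+ Γ) {S : ℕ} (hS : 1 ≤ S) (hvol : (lat B).ncard ≤ S) :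
    ∃ (k : ℕ) (v : Fin k → Γ) (N : Fin k → ℕ) (F : Finset Γ), k ≤ d ∧ (∀ i, 1 ≤ N i) ∧
      (∀ m n : Fin k → ℕ, (∀ i, m i < N i) → (∀ i, n i < N i) →
        ∑ i, m i • v i = ∑ i, n i • v i → m = n) ∧
      ∏ i, N i ≤ S ∧ (F.card : ℝ) ≤ (6400000000 * ((d : ℝ) + 1) ^ 3) ^ d ∧
      ∀ x ∈ lat B, ∃ f ∈ F, ∃ n : Fin k → ℕ, (∀ i, n i < N i) ∧ ψ x = f + ∑ i, n i • v i := by
  have hSR : (1 : ℝ) ≤ S := by exact_mod_cast hS
  obtain ⟨k, v, L, F, hk, hprop, hv, hF, hcov⟩ := prog_cover hB ψ hSR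
  obtain ⟨h1, h2⟩ := to_nat v L hprop
  have hfin : (lat B).Finite := lat_finite hB.2.1.isBounded
  have h3 : ((((fun x => ψ x) '' lat B).ncard : ℕ) : ℝ) ≤ S := by
    exact_mod_cast (Set.ncard_image_le hfin).trans hvol
  have h4 : max 1 ((((fun x => ψ x) '' lat B).ncard : ℝ) / (S : ℝ)) = 1 := by
    refine max_eq_left ?_
    rw [div_le_one (by linarith)]
    exact h3
  rw [h4, mul_one] at hF
  refine ⟨k, v, fun i => 2 * L i + 1, F.image fun f => f - ∑ i, L i • v i, hk,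
    fun i => Nat.le_add_left 1 _, h1, by exact_mod_cast hv, ?_, ?_⟩
  · refine le_trans ?_ hF
    exact_mod_cast card_image_le
  · intro x hx
    obtain ⟨f, hf, a, ha, e⟩ := hcov x hx
    obtain ⟨n, hn, e'⟩ := h2 f a ha
    exact ⟨_, mem_image_of_mem _ hf, n, hn, by rw [e, e']⟩

theorem finite_eq_zero {Γ : Type*} [AddCommGroup Γ]
    (htf : ∀ (n : ℕ) (x : Γ), n ≠ 0 → n • x = 0 → x = 0) (H : AddSubgroup Γ) [Finite H] :
    ∀ h ∈ H, h = 0 := by
  intro h hh
  have h1 : Nat.card H • (⟨h, hh⟩ : H) = 0 := card_nsmul_eq_zero'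
  have h2 : Nat.card H • h = 0 := by
    have h3 := congrArg H.subtype h1
    rw [map_nsmul, map_zero] at h3
    exact h3
  exact htf _ h Nat.card_pos.ne' h2

/-- **Iterated sumsets in torsion-free groups.** -/
theorem upper {Γ : Type u} [AddCommGroup Γ] [DecidableEq Γ]
    (htf : ∀ (n : ℕ) (x : Γ), n ≠ 0 → n • x = 0 → x = 0) {ε : ℝ} (h0 : 0 < ε) (h1 : ε ≤ 1)
    {m : ℕ} (hm : 2 ≤ m) {L : ℝ} {A : Finset Γ} (hA : A.Nonempty)
    (hL : ((sm A m).card : ℝ) ≤ L * A.card) :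
    ∃ (d : ℕ) (v : Fin d → Γ) (N : Fin d → ℕ) (T : Finset Γ),
      (d : ℝ) ≤ max 1 ((1 + ε) * (Real.logb 2 L / Nat.log 2 m) + ε) ∧ (∀ i, 1 ≤ N i) ∧
      (∀ a b : Fin d → ℕ, (∀ i, a i < N i) → (∀ i, b i < N i) →
        ∑ i, a i • v i = ∑ i, b i • v i → a = b) ∧
      ∏ i, N i ≤ A.card ∧
      (T.card : ℝ) ≤ (2 * L) ^ (9 * (900 / ε) ^ (4 * ⌈3000 / ε⌉₊) *
        (1 + Real.log (1 + Real.log (2 * L)) / Real.log m)) ∧
      ∀ a ∈ A, ∃ t ∈ T, ∃ n : Fin d → ℕ, (∀ i, n i < N i) ∧ a = t + ∑ i, n i • v i := by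
  classical
  have hApos : (0 : ℝ) < A.card := by exact_mod_cast hA.card_pos
  have hL1 : 1 ≤ L := by
    have h1 : A.card ≤ (sm A m).card := by
      have := sm_card_mono hA (show 1 ≤ m by omega)
      rwa [sm_one] at this
    have h2 : (A.card : ℝ) ≤ (sm A m).card := by exact_mod_cast h1
    nlinarith
  have h2L : (0 : ℝ) < 2 * L := by linarith
  have h2L1 : (1 : ℝ) ≤ 2 * L := by linarith
  obtain ⟨l, hl⟩ : ∃ l : ℝ, l = Real.log (2 * L) := ⟨_, rfl⟩
  have hl0 : 0 ≤ l := by rw [hl]; exact Real.log_nonneg h2L1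
  have hmR : (2 : ℝ) ≤ m := by exact_mod_cast hm
  have hlogm : 0 < Real.log m := Real.log_pos (by linarith)
  obtain ⟨μ, hμ⟩ : ∃ μ : ℝ, μ = Real.log (1 + l) / Real.log m := ⟨_, rfl⟩
  have hμ0 : 0 ≤ μ := by
    rw [hμ]; exact div_nonneg (Real.log_nonneg (by linarith)) hlogm.le
  obtain ⟨k, hk⟩ : ∃ k : ℕ, k = ⌊μ⌋₊ + 1 := ⟨_, rfl⟩
  have hkμ : (k : ℝ) ≤ 1 + μ := by
    rw [hk]
    push_cast
    have := Nat.floor_le hμ0
    linarith
  have hμk : μ ≤ k := by
    rw [hk]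
    push_cast
    exact (Nat.lt_floor_add_one μ).le
  have hkn : Real.log (2 * L) ≤ (m : ℝ) ^ k := by
    rw [← hl]
    have h3 : Real.log (1 + l) ≤ k * Real.log m := by
      rw [hμ, div_le_iff₀ hlogm] at hμk
      exact hμk
    have h4 : 1 + l ≤ (m : ℝ) ^ k := by
      have h5 := Real.exp_le_exp.2 h3
      rw [Real.exp_log (by linarith), ← Real.log_pow, Real.exp_log (by positivity)] at h5
      exact h5
    linarith
  obtain ⟨d, B, ψ, H, T, hd, hB, hH, hvol, hT, hcov⟩ :=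
    Pool.Agent.Q297.IT.iterated h0 h1 (show 1 ≤ k by omega) hm hA hL hkn
  have := hH
  have hH0 := finite_eq_zero htf H
  have hHc : 1 ≤ Nat.card H := Nat.card_pos
  have hvol' : (lat B).ncard ≤ A.card := (Nat.le_mul_of_pos_right _ hHc).trans hvol
  obtain ⟨r, v, N, F, hr, hN1, hprop, hNv, hF, hcov'⟩ := cover_nat hB ψ hA.card_pos hvol'
  have hdim := dim_le h0 h1 hm hL1 hd
  have hdim' : (d : ℝ) ≤ 4 * (1 + Real.log (2 * L) / Real.log m) := by linarith
  have hloss := loss_le hm hL1 (by norm_num : (4 : ℝ) ≤ 4) hdim'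
  rw [← hl, ← hμ] at hloss
  obtain ⟨C, hC⟩ : ∃ C : ℝ, C = (900 / ε) ^ (4 * ⌈3000 / ε⌉₊) := ⟨_, rfl⟩
  have hC900 : 900 ≤ C := by
    have h3 : (900 : ℝ) ≤ 900 / ε := by
      rw [le_div_iff₀ h0]; nlinarith
    have h4 : 1 ≤ ⌈3000 / ε⌉₊ := Nat.one_le_ceil_iff.2 (by positivity)
    rw [hC]
    calc (900 : ℝ) ≤ 900 / ε := h3
      _ = (900 / ε) ^ 1 := (pow_one _).symm
      _ ≤ _ := pow_le_pow_right₀ (by linarith) (by omega)
  rw [← hl, ← hμ, ← hC]
  rw [← hC] at hT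
  refine ⟨r, v, N, (T ×ˢ F).image fun p => p.1 + p.2, ?_, hN1, hprop, hNv, ?_, ?_⟩
  · refine le_trans ?_ hd
    exact_mod_cast hr
  · have h3 : ((((T ×ˢ F).image fun p => p.1 + p.2).card : ℕ) : ℝ) ≤ T.card * F.card := by
      have h4 := card_image_le (s := T ×ˢ F) (f := fun p : Γ × Γ => p.1 + p.2)
      rw [card_product] at h4
      exact_mod_cast h4
    have hlog4 : Real.log 4 ≤ 1.4 := by
      have h5 := Real.log_two_lt_d9
      have h6 : Real.log 4 = 2 * Real.log 2 := by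
        rw [show (4 : ℝ) = 2 ^ 2 by norm_num, Real.log_pow]; norm_num
      linarith
    calc ((((T ×ˢ F).image fun p => p.1 + p.2).card : ℕ) : ℝ) ≤ T.card * F.card := h3
      _ ≤ (2 * L) ^ (8 * k * C) * (2 * L) ^ (4 * (100 + 9 * Real.log 4) * (1 + μ)) :=
          mul_le_mul hT (hF.trans hloss) (Nat.cast_nonneg _) (by positivity)
      _ = (2 * L) ^ (8 * k * C + 4 * (100 + 9 * Real.log 4) * (1 + μ)) :=
          (Real.rpow_add h2L _ _).symm
      _ ≤ (2 * L) ^ (9 * C * (1 + μ)) := by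
          refine Real.rpow_le_rpow_of_exponent_le h2L1 ?_
          have h5 : 8 * k * C ≤ 8 * C * (1 + μ) := by nlinarith
          have h6 : 4 * (100 + 9 * Real.log 4) ≤ C := by nlinarith
          have h7 : 4 * (100 + 9 * Real.log 4) * (1 + μ) ≤ C * (1 + μ) :=
            mul_le_mul_of_nonneg_right h6 (by linarith)
          linarith
  · intro a ha
    obtain ⟨t, ht, x, hx, h, hh, e⟩ := hcov a ha
    obtain ⟨f, hf, n, hn, e'⟩ := hcov' x hx
    refine ⟨t + f, mem_image.2 ⟨(t, f), mk_mem_product ht hf, rfl⟩, n, hn, ?_⟩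
    rw [e, hH0 h hh, e', add_zero, add_assoc]

end Pool.Agent.Q221.GP
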