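import Pool.Agent.Q221.GP.Main
import Pool.Agent.Q130.HE.Fin
import Pool.Agent.H112R2.FinalGap

/-!
# Sums of many sets and energies: proper progressions
-/

set_option autoImplicit false

namespace Pool.Agent.Q221.GP

open Finset Pool.Agent.Y806.DF Q123.VP Pool.Agent.TH513.IS
open scoped Pointwise

universe u

/-- The covering by translates of a proper progression with at most `S` elements. -/
theorem cover_natR {Γ : Type*} [AddCommGroup Γ] [DecidableEq Γ] {d : ℕ} {B : Set (Fin d → ℝ)}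
    (hB : Body B) (ψ : (Fin d → ℤ) →+ Γ) {S : ℕ} (hS : 1 ≤ S) {R : ℝ} (hR : 1 ≤ R)
    (hvol : ((lat B).ncard : ℝ) ≤ R * S) :
    ∃ (k : ℕ) (v : Fin k → Γ) (N : Fin k → ℕ) (F : Finset Γ), k ≤ d ∧ (∀ i, 1 ≤ N i) ∧
      (∀ m n : Fin k → ℕ, (∀ i, m i < N i) → (∀ i, n i < N i) →
        ∑ i, m i • v i = ∑ i, n i • v i → m = n) ∧
      ∏ i, N i ≤ S ∧ (F.card : ℝ) ≤ (6400000000 * ((d : ℝ) + 1) ^ 3) ^ d * R ∧
      ∀ x ∈ lat B, ∃ f ∈ F, ∃ n : Fin k → ℕ, (∀ i, n i < N i) ∧ ψ x = f + ∑ i, n i • v i := by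
  have hSR : (1 : ℝ) ≤ S := by exact_mod_cast hS
  obtain ⟨k, v, L, F, hk, hprop, hv, hF, hcov⟩ := prog_cover hB ψ hSR
  obtain ⟨h1, h2⟩ := to_nat v L hprop
  have hfin : (lat B).Finite := lat_finite hB.2.1.isBounded
  have h3 : ((((fun x => ψ x) '' lat B).ncard : ℕ) : ℝ) ≤ R * S := by
    refine le_trans ?_ hvol
    exact_mod_cast Set.ncard_image_le hfin
  have h4 : max 1 ((((fun x => ψ x) '' lat B).ncard : ℝ) / (S : ℝ)) ≤ R := by
    refine max_le hR ?_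
    rw [div_le_iff₀ (by linarith)]
    exact h3
  refine ⟨k, v, fun i => 2 * L i + 1, F.image fun f => f - ∑ i, L i • v i, hk,
    fun i => Nat.le_add_left 1 _, h1, by exact_mod_cast hv, ?_, ?_⟩
  · have h5 : (((F.image fun f => f - ∑ i, L i • v i).card : ℕ) : ℝ) ≤ F.card := by
      exact_mod_cast card_image_le
    exact h5.trans (hF.trans (mul_le_mul_of_nonneg_left h4 (by positivity)))
  · intro x hx
    obtain ⟨f, hf, a, ha, e⟩ := hcov x hx
    obtain ⟨n, hn, e'⟩ := h2 f a ha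
    exact ⟨_, mem_image_of_mem _ hf, n, hn, by rw [e, e']⟩

/-- **Iterated sumsets in torsion-free groups**, with a bound for the size. -/
theorem upperR {Γ : Type u} [AddCommGroup Γ] [DecidableEq Γ]
    (htf : ∀ (n : ℕ) (x : Γ), n ≠ 0 → n • x = 0 → x = 0) {ε : ℝ} (h0 : 0 < ε) (h1 : ε ≤ 1)
    {m : ℕ} (hm : 2 ≤ m) {L : ℝ} {A : Finset Γ} (hA : A.Nonempty)
    (hL : ((sm A m).card : ℝ) ≤ L * A.card) {S : ℕ} (hS : 1 ≤ S) {R : ℝ} (hR : 1 ≤ R)
    (hAS : (A.card : ℝ) ≤ R * S) :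
    ∃ (d : ℕ) (v : Fin d → Γ) (N : Fin d → ℕ) (T : Finset Γ),
      (d : ℝ) ≤ max 1 ((1 + ε) * (Real.logb 2 L / Nat.log 2 m) + ε) ∧ (∀ i, 1 ≤ N i) ∧
      (∀ a b : Fin d → ℕ, (∀ i, a i < N i) → (∀ i, b i < N i) →
        ∑ i, a i • v i = ∑ i, b i • v i → a = b) ∧
      ∏ i, N i ≤ S ∧
      (T.card : ℝ) ≤ (2 * L) ^ (9 * (900 / ε) ^ (4 * ⌈3000 / ε⌉₊) *
        (1 + Real.log (1 + Real.log (2 * L)) / Real.log m)) * R ∧
      ∀ a ∈ A, ∃ t ∈ T, ∃ n : Fin d → ℕ, (∀ i, n i < N i) ∧ a = t + ∑ i, n i • v i := by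
  classical
  have hApos : (0 : ℝ) < A.card := by exact_mod_cast hA.card_pos
  have hL1 : 1 ≤ L := by
    have h1 : A.card ≤ (sm A m).card := by
      have := sm_card_mono hA (show 1 ≤ m by omega)
      rwa [sm_one] at this
    have h2 : (A.card : ℝ) ≤ (sm A m).card := by exact_mod_cast h1
    nlinarith
  have h2L : (0 : ℝ) < 2 * L := by linarith
  have h2L1 : (1 : ℝ) ≤ 2 * L := by linarith
  obtain ⟨l, hl⟩ : ∃ l : ℝ, l = Real.log (2 * L) := ⟨_, rfl⟩
  have hl0 : 0 ≤ l := by rw [hl]; exact Real.log_nonneg h2L1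
  have hmR : (2 : ℝ) ≤ m := by exact_mod_cast hm
  have hlogm : 0 < Real.log m := Real.log_pos (by linarith)
  obtain ⟨μ, hμ⟩ : ∃ μ : ℝ, μ = Real.log (1 + l) / Real.log m := ⟨_, rfl⟩
  have hμ0 : 0 ≤ μ := by
    rw [hμ]; exact div_nonneg (Real.log_nonneg (by linarith)) hlogm.le
  obtain ⟨k, hk⟩ : ∃ k : ℕ, k = ⌊μ⌋₊ + 1 := ⟨_, rfl⟩
  have hkμ : (k : ℝ) ≤ 1 + μ := by
    rw [hk]
    push_cast
    have := Nat.floor_le hμ0
    linarith
  have hμk : μ ≤ k := by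
    rw [hk]
    push_cast
    exact (Nat.lt_floor_add_one μ).le
  have hkn : Real.log (2 * L) ≤ (m : ℝ) ^ k := by
    rw [← hl]
    have h3 : Real.log (1 + l) ≤ k * Real.log m := by
      rw [hμ, div_le_iff₀ hlogm] at hμk
      exact hμk
    have h4 : 1 + l ≤ (m : ℝ) ^ k := by
      have h5 := Real.exp_le_exp.2 h3
      rw [Real.exp_log (by linarith), ← Real.log_pow, Real.exp_log (by positivity)] at h5
      exact h5
    linarith
  obtain ⟨d, B, ψ, H, T, hd, hB, hH, hvol, hT, hcov⟩ :=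
    Pool.Agent.Q297.IT.iterated h0 h1 (show 1 ≤ k by omega) hm hA hL hkn
  have := hH
  have hH0 := finite_eq_zero htf H
  have hHc : 1 ≤ Nat.card H := Nat.card_pos
  have hvol' : ((lat B).ncard : ℝ) ≤ R * S := by
    refine le_trans ?_ hAS
    exact_mod_cast (Nat.le_mul_of_pos_right _ hHc).trans hvol
  obtain ⟨r, v, N, F, hr, hN1, hprop, hNv, hF, hcov'⟩ := cover_natR hB ψ hS hR hvol'
  have hdim := dim_le h0 h1 hm hL1 hd
  have hdim' : (d : ℝ) ≤ 4 * (1 + Real.log (2 * L) / Real.log m) := by linarith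
  have hloss := loss_le hm hL1 (by norm_num : (4 : ℝ) ≤ 4) hdim'
  rw [← hl, ← hμ] at hloss
  obtain ⟨C, hC⟩ : ∃ C : ℝ, C = (900 / ε) ^ (4 * ⌈3000 / ε⌉₊) := ⟨_, rfl⟩
  have hC900 : 900 ≤ C := by
    have h3 : (900 : ℝ) ≤ 900 / ε := by
      rw [le_div_iff₀ h0]; nlinarith
    have h4 : 1 ≤ ⌈3000 / ε⌉₊ := Nat.one_le_ceil_iff.2 (by positivity)
    rw [hC]
    calc (900 : ℝ) ≤ 900 / ε := h3
      _ = (900 / ε) ^ 1 := (pow_one _).symm
      _ ≤ _ := pow_le_pow_right₀ (by linarith) (by omega)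
  rw [← hl, ← hμ, ← hC]
  rw [← hC] at hT
  refine ⟨r, v, N, (T ×ˢ F).image fun p => p.1 + p.2, ?_, hN1, hprop, hNv, ?_, ?_⟩
  · refine le_trans ?_ hd
    exact_mod_cast hr
  · have h3 : ((((T ×ˢ F).image fun p => p.1 + p.2).card : ℕ) : ℝ) ≤ T.card * F.card := by
      have h4 := card_image_le (s := T ×ˢ F) (f := fun p : Γ × Γ => p.1 + p.2)
      rw [card_product] at h4
      exact_mod_cast h4
    have hlog4 : Real.log 4 ≤ 1.4 := by
      have h5 := Real.log_two_lt_d9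
      have h6 : Real.log 4 = 2 * Real.log 2 := by
        rw [show (4 : ℝ) = 2 ^ 2 by norm_num, Real.log_pow]; norm_num
      linarith
    calc ((((T ×ˢ F).image fun p => p.1 + p.2).card : ℕ) : ℝ) ≤ T.card * F.card := h3
      _ ≤ (2 * L) ^ (8 * k * C) * ((2 * L) ^ (4 * (100 + 9 * Real.log 4) * (1 + μ)) * R) :=
          mul_le_mul hT (hF.trans (mul_le_mul_of_nonneg_right hloss (by linarith)))
            (Nat.cast_nonneg _) (by positivity)
      _ = (2 * L) ^ (8 * k * C + 4 * (100 + 9 * Real.log 4) * (1 + μ)) * R := by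
          rw [Real.rpow_add h2L]
          ring
      _ ≤ (2 * L) ^ (9 * C * (1 + μ)) * R := by
          refine mul_le_mul_of_nonneg_right (Real.rpow_le_rpow_of_exponent_le h2L1 ?_) (by linarith)
          have h5 : 8 * k * C ≤ 8 * C * (1 + μ) := by nlinarith
          have h6 : 4 * (100 + 9 * Real.log 4) ≤ C := by nlinarith
          have h7 : 4 * (100 + 9 * Real.log 4) * (1 + μ) ≤ C * (1 + μ) :=
            mul_le_mul_of_nonneg_right h6 (by linarith)
          linarith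
  · intro a ha
    obtain ⟨t, ht, x, hx, h, hh, e⟩ := hcov a ha
    obtain ⟨f, hf, n, hn, e'⟩ := hcov' x hx
    refine ⟨t + f, mem_image.2 ⟨(t, f), mk_mem_product ht hf, rfl⟩, n, hn, ?_⟩
    rw [e, hH0 h hh, e', add_zero, add_assoc]

/-- The number `1 + log (1 + log (2 K ^ 3)) / log m`. -/
theorem mu_cube {K : ℝ} (hK : 1 ≤ K) {m : ℕ} (hm : 2 ≤ m) :
    (1 + Real.log (1 + Real.log (2 * K ^ 3)) / Real.log m) ≤
      3 * (1 + Real.log (1 + Real.log (2 * K)) / Real.log m) := by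
  have hmR : (2 : ℝ) ≤ m := by exact_mod_cast hm
  have hlogm : 0 < Real.log m := Real.log_pos (by linarith)
  have hl : 0 ≤ Real.log (2 * K) := Real.log_nonneg (by linarith)
  have hK3 : 1 ≤ K ^ 3 := one_le_pow₀ hK
  have h1 : Real.log (2 * K ^ 3) ≤ 3 * Real.log (2 * K) := by
    have h2 : Real.log (2 * K ^ 3) ≤ Real.log ((2 * K) ^ 3) := by
      refine Real.log_le_log (by positivity) ?_
      nlinarith
    rw [Real.log_pow] at h2
    exact_mod_cast h2
  have h3 : Real.log (1 + Real.log (2 * K ^ 3)) ≤ 3 * Real.log (1 + Real.log (2 * K)) := by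
    have h4 : 0 ≤ Real.log (2 * K ^ 3) := Real.log_nonneg (by linarith)
    have h5 : Real.log (1 + Real.log (2 * K ^ 3)) ≤ Real.log ((1 + Real.log (2 * K)) ^ 3) := by
      refine Real.log_le_log (by linarith) ?_
      nlinarith [mul_nonneg hl hl, mul_nonneg (mul_nonneg hl hl) hl]
    rw [Real.log_pow] at h5
    exact_mod_cast h5
  have h6 : Real.log (1 + Real.log (2 * K ^ 3)) / Real.log m ≤
      3 * (Real.log (1 + Real.log (2 * K)) / Real.log m) := by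
    rw [← mul_div_assoc]
    exact div_le_div_of_nonneg_right h3 hlogm.le
  linarith

/-- The bound for `L = K ^ 3` in terms of `K`. -/
theorem pow_cube {K : ℝ} (hK : 1 ≤ K) {m : ℕ} (hm : 2 ≤ m) {C : ℝ} (hC : 0 ≤ C) :
    (2 * K ^ 3) ^ (9 * C * (1 + Real.log (1 + Real.log (2 * K ^ 3)) / Real.log m)) ≤
      (2 * K) ^ (81 * C * (1 + Real.log (1 + Real.log (2 * K)) / Real.log m)) := by
  have hK3 : 1 ≤ K ^ 3 := one_le_pow₀ hK
  have h1 := mu_cube hK hm
  have hmR : (2 : ℝ) ≤ m := by exact_mod_cast hm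
  have hlogm : 0 < Real.log m := Real.log_pos (by linarith)
  have h2 : 0 ≤ Real.log (1 + Real.log (2 * K ^ 3)) / Real.log m := by
    refine div_nonneg (Real.log_nonneg ?_) hlogm.le
    have := Real.log_nonneg (show (1 : ℝ) ≤ 2 * K ^ 3 by linarith)
    linarith
  have h3 : 2 * K ^ 3 ≤ (2 * K) ^ 3 := by nlinarith
  calc (2 * K ^ 3) ^ (9 * C * (1 + Real.log (1 + Real.log (2 * K ^ 3)) / Real.log m))
      ≤ ((2 * K) ^ 3) ^ (9 * C * (1 + Real.log (1 + Real.log (2 * K ^ 3)) / Real.log m)) :=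
        Real.rpow_le_rpow (by positivity) h3 (by positivity)
    _ ≤ ((2 * K) ^ 3) ^ (9 * C * (3 * (1 + Real.log (1 + Real.log (2 * K)) / Real.log m))) := by
        refine Real.rpow_le_rpow_of_exponent_le (one_le_pow₀ (by linarith)) ?_
        exact mul_le_mul_of_nonneg_left h1 (by positivity)
    _ = (2 * K) ^ (81 * C * (1 + Real.log (1 + Real.log (2 * K)) / Real.log m)) := by
        rw [← Real.rpow_natCast, ← Real.rpow_mul (by linarith)]
        congr 1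
        push_cast
        ring


/-- The differences of the elements of a progression. -/
theorem diff_cover {Γ : Type*} [AddCommGroup Γ] [DecidableEq Γ] {d : ℕ} (v : Fin d → Γ)
    (N : Fin d → ℕ) : ∃ E : Finset Γ, E.card ≤ 2 ^ d ∧
      ∀ a b : Fin d → ℕ, (∀ i, a i < N i) → (∀ i, b i < N i) →
        ∃ e ∈ E, ∃ c : Fin d → ℕ, (∀ i, c i < N i) ∧
          ∑ i, a i • v i - ∑ i, b i • v i = e + ∑ i, c i • v i := by
  classical
  obtain ⟨F, hF⟩ : ∃ F : Finset (Fin d → ℤ),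
      F = Fintype.piFinset fun i => ({0, -(((N i - 1 : ℕ) : ℤ))} : Finset ℤ) := ⟨_, rfl⟩
  have hFc : F.card ≤ 2 ^ d := by
    rw [hF, Fintype.card_piFinset]
    calc ∏ i, (({0, -(((N i - 1 : ℕ) : ℤ))} : Finset ℤ)).card ≤ ∏ _i : Fin d, 2 :=
          prod_le_prod' fun i _ => card_le_two
      _ = 2 ^ d := by simp
  refine ⟨F.image fun f => ∑ i, f i • v i, card_image_le.trans hFc, fun a b ha hb => ?_⟩
  refine ⟨∑ i, (if b i ≤ a i then 0 else -(((N i - 1 : ℕ) : ℤ))) • v i, ?_,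
    fun i => if b i ≤ a i then a i - b i else a i + (N i - 1) - b i, ?_, ?_⟩
  · refine mem_image.2 ⟨fun i => if b i ≤ a i then 0 else -(((N i - 1 : ℕ) : ℤ)), ?_, rfl⟩
    rw [hF, Fintype.mem_piFinset]
    intro i
    split_ifs <;> simp
  · intro i
    have h1 := ha i
    have h2 := hb i
    show (if b i ≤ a i then a i - b i else a i + (N i - 1) - b i) < N i
    split_ifs with h3 <;> omega
  · rw [← sum_sub_distrib, ← sum_add_distrib]
    refine sum_congr rfl fun i _ => ?_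
    have h1 := ha i
    have h2 := hb i
    have h4 : ((a i : ℤ) - b i) = (if b i ≤ a i then 0 else -(((N i - 1 : ℕ) : ℤ))) +
        ((if b i ≤ a i then a i - b i else a i + (N i - 1) - b i : ℕ) : ℤ) := by
      split_ifs with h3 <;> omega
    rw [← natCast_zsmul (v i) (a i), ← natCast_zsmul (v i) (b i), ← sub_smul, h4, add_smul,
      natCast_zsmul]

theorem C_ge {ε : ℝ} (h0 : 0 < ε) (h1 : ε ≤ 1) : (900 : ℝ) ≤ (900 / ε) ^ (4 * ⌈3000 / ε⌉₊) := by
  have h3 : (900 : ℝ) ≤ 900 / ε := by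
    rw [le_div_iff₀ h0]; nlinarith
  have h4 : 1 ≤ ⌈3000 / ε⌉₊ := Nat.one_le_ceil_iff.2 (by positivity)
  calc (900 : ℝ) ≤ 900 / ε := h3
    _ = (900 / ε) ^ 1 := (pow_one _).symm
    _ ≤ _ := pow_le_pow_right₀ (by linarith) (by omega)

open Pool.Agent.Q130.HE in
/-- Among `m` sets with a small sum there is one with small iterated sumsets of all orders. -/
theorem exists_good_all {G : Type*} [AddCommGroup G] [DecidableEq G] {m : ℕ} (hm : 2 ≤ m)
    (A : Fin m → Finset G) (hA : ∀ i, (A i).Nonempty)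
    {K : ℝ} (hK : 1 ≤ K) (h : ∀ i, ((∑ j, A j).card : ℝ) ≤ K * (A i).card) :
    ∃ i, ∀ s : ℕ, ((sums s (A i)).card : ℝ) ≤ K ^ (1 + (s : ℝ) / ((m : ℝ) - 1)) * (A i).card := by
  classical
  have hK0 : 0 < K := by linarith
  obtain ⟨A', hA'⟩ : ∃ A' : ℕ → Finset G, A' = fun i => if h : i < m then A ⟨i, h⟩ else 0 := ⟨_, rfl⟩
  have hA'i : ∀ i : Fin m, A' i = A i := by
    intro i
    rw [hA']
    simp
  have hsum : ∑ j, A j = ∑ i ∈ range m, A' i := by
    rw [← Fin.sum_univ_eq_sum_range]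
    exact sum_congr rfl fun i _ => (hA'i i).symm
  have hA'ne : ∀ i, (A' i).Nonempty := by
    intro i
    rw [hA']
    simp only
    split_ifs
    · exact hA _
    · exact zero_nonempty
  obtain ⟨S, hS⟩ : ∃ S : ℕ → Finset G, S = fun k => ∑ i ∈ range k, A' i := ⟨_, rfl⟩
  have hSsucc : ∀ k, S (k + 1) = S k + A' k := by
    intro k
    rw [hS]
    exact sum_range_succ _ _
  have hSne : ∀ k, (S k).Nonempty := by
    intro k
    rw [hS]
    exact sum_nonempty _ _ fun i _ => hA'ne i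
  have hSmono : ∀ k ≤ m, (S k).card ≤ (S m).card := by
    intro k hk
    rw [hS]
    exact card_sum_mono (range_subset_range.2 hk) _ fun i _ => hA'ne i
  have hSm : ∀ i : Fin m, ((S m).card : ℝ) ≤ K * (A i).card := by
    intro i
    have := h i
    rw [hsum] at this
    rw [hS]
    exact this
  obtain ⟨α, hα⟩ : ∃ α, α = K ^ (((m - 1 : ℕ) : ℝ)⁻¹) := ⟨_, rfl⟩
  have hα1 : 1 ≤ α := by rw [hα]; exact Real.one_le_rpow hK (by positivity)
  have hα0 : 0 < α := by linarith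
  have hαm : α ^ (m - 1) = K := by rw [hα, Real.rpow_inv_natCast_pow hK0.le (by omega)]
  -- a step with a small increment
  obtain ⟨k, hk1, hkm, hk⟩ : ∃ k, 1 ≤ k ∧ k < m ∧ ((S (k + 1)).card : ℝ) ≤ α * (S k).card := by
    by_contra hcon
    push Not at hcon
    have h1 : ∀ k, 1 ≤ k → k < m → α ^ k * ((S 1).card : ℝ) < (S (k + 1)).card := by
      intro k
      induction k with
      | zero => intro h; omega
      | succ k ih =>
        intro _ hk
        have h2 := hcon (k + 1) (by omega) hk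
        rcases Nat.eq_zero_or_pos k with h0 | h0
        · subst h0
          simpa using h2
        · have h3 := ih h0 (by omega)
          calc α ^ (k + 1) * ((S 1).card : ℝ) = α * (α ^ k * (S 1).card) := by ring
            _ < α * (S (k + 1)).card := mul_lt_mul_of_pos_left h3 hα0
            _ < _ := h2
    have h2 := h1 (m - 1) (by omega) (by omega)
    rw [hαm, show m - 1 + 1 = m by omega] at h2
    have h3 := hSm ⟨0, by omega⟩
    have h4 : S 1 = A ⟨0, by omega⟩ := by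
      rw [show (1 : ℕ) = 0 + 1 by rfl, hSsucc]
      have h5 : S 0 = 0 := by rw [hS]; exact sum_range_zero _
      have h6 : A' 0 = A ⟨0, by omega⟩ := hA'i ⟨0, by omega⟩
      rw [h5, h6, zero_add]
    rw [h4] at h2
    linarith
  have h1 := hk
  rw [hSsucc] at h1
  refine ⟨⟨k, hkm⟩, fun s => ?_⟩
  have h2 := sums_card_le (hSne k) h1 s
  have h3 : A' k = A ⟨k, hkm⟩ := hA'i ⟨k, hkm⟩
  rw [h3] at h2
  have h5 : ((S k).card : ℝ) ≤ K * (A ⟨k, hkm⟩).card := by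
    refine le_trans ?_ (hSm ⟨k, hkm⟩)
    exact_mod_cast hSmono k hkm.le
  have h6 : α ^ s * K = K ^ (1 + (s : ℝ) / ((m : ℝ) - 1)) := by
    rw [hα, ← Real.rpow_natCast, ← Real.rpow_mul hK0.le, Real.rpow_add hK0, Real.rpow_one,
      mul_comm K]
    congr 2
    rw [Nat.cast_sub (by omega), Nat.cast_one, inv_mul_eq_div]
  calc ((sums s (A ⟨k, hkm⟩)).card : ℝ) ≤ α ^ s * (S k).card := h2
    _ ≤ α ^ s * (K * (A ⟨k, hkm⟩).card) := by gcongr
    _ = _ := by rw [← mul_assoc, h6]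

/-- The exponent `1 + s / (m - 1)`. -/
theorem expo_le {m s : ℕ} (hm : 2 ≤ m) (hsm : s ≤ m) :
    0 ≤ (s : ℝ) / ((m : ℝ) - 1) ∧ 1 + (s : ℝ) / ((m : ℝ) - 1) ≤ 3 := by
  have hmR : (2 : ℝ) ≤ m := by exact_mod_cast hm
  have hsR : (s : ℝ) ≤ m := by exact_mod_cast hsm
  have h1 : (0 : ℝ) < (m : ℝ) - 1 := by linarith
  refine ⟨div_nonneg (Nat.cast_nonneg _) h1.le, ?_⟩
  have h2 : (s : ℝ) / ((m : ℝ) - 1) ≤ 2 := by
    rw [div_le_iff₀ h1]
    linarith
  linarith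

/-- The bound for `L = K ^ c`, `1 ≤ c ≤ 3`, in terms of `K`. -/
theorem pow_le_three {K c : ℝ} (hK : 1 ≤ K) (hc1 : 1 ≤ c) (hc3 : c ≤ 3) {s : ℕ} (hs : 2 ≤ s)
    {C : ℝ} (hC : 0 ≤ C) :
    (2 * K ^ c) ^ (9 * C * (1 + Real.log (1 + Real.log (2 * K ^ c)) / Real.log s)) ≤
      (2 * K) ^ (81 * C * (1 + Real.log (1 + Real.log (2 * K)) / Real.log s)) := by
  refine le_trans ?_ (pow_cube hK hs hC)
  have h1 : (1 : ℝ) ≤ K ^ c := Real.one_le_rpow hK (by linarith)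
  have h2 : K ^ c ≤ K ^ 3 := by
    have := Real.rpow_le_rpow_of_exponent_le hK hc3
    rwa [show (3 : ℝ) = ((3 : ℕ) : ℝ) by norm_num, Real.rpow_natCast] at this
  have hsR : (2 : ℝ) ≤ s := by exact_mod_cast hs
  have hlogs : 0 < Real.log s := Real.log_pos (by linarith)
  have hl0 : 0 ≤ Real.log (2 * K ^ c) := Real.log_nonneg (by linarith)
  have hll : Real.log (2 * K ^ c) ≤ Real.log (2 * K ^ 3) :=
    Real.log_le_log (by linarith) (by linarith)
  have h3 : Real.log (1 + Real.log (2 * K ^ c)) / Real.log s ≤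
      Real.log (1 + Real.log (2 * K ^ 3)) / Real.log s :=
    div_le_div_of_nonneg_right (Real.log_le_log (by linarith) (by linarith)) hlogs.le
  have h4 : 0 ≤ Real.log (1 + Real.log (2 * K ^ c)) / Real.log s :=
    div_nonneg (Real.log_nonneg (by linarith)) hlogs.le
  calc (2 * K ^ c) ^ (9 * C * (1 + Real.log (1 + Real.log (2 * K ^ c)) / Real.log s))
      ≤ (2 * K ^ 3) ^ (9 * C * (1 + Real.log (1 + Real.log (2 * K ^ c)) / Real.log s)) :=
        Real.rpow_le_rpow (by linarith) (by linarith) (by positivity)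
    _ ≤ _ := by
        refine Real.rpow_le_rpow_of_exponent_le (by linarith) ?_
        exact mul_le_mul_of_nonneg_left (by linarith) (by positivity)

theorem logb_pow' {K c : ℝ} (hK : 1 ≤ K) (s : ℕ) :
    Real.logb 2 (K ^ c) / (Nat.log 2 s : ℝ) = c * (Real.logb 2 K / (Nat.log 2 s : ℝ)) := by
  rw [Real.logb_rpow_eq_mul_logb_of_pos (by linarith)]
  ring

/-- **Many sets.** -/
theorem many {Γ : Type u} [AddCommGroup Γ] [DecidableEq Γ]
    (htf : ∀ (n : ℕ) (x : Γ), n ≠ 0 → n • x = 0 → x = 0) {ε : ℝ} (h0 : 0 < ε) (h1 : ε ≤ 1)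
    {m s : ℕ} (hs : 2 ≤ s) (hsm : s ≤ m) {K : ℝ} (hK : 1 ≤ K) (A : Fin m → Finset Γ)
    (hA : ∀ i, (A i).Nonempty) (h : ∀ i, ((∑ j, A j).card : ℝ) ≤ K * (A i).card) :
    ∃ (d : ℕ) (v : Fin d → Γ) (N : Fin d → ℕ),
      (d : ℝ) ≤ max 1 ((1 + ε) * ((1 + (s : ℝ) / ((m : ℝ) - 1)) *
        (Real.logb 2 K / Nat.log 2 s)) + ε) ∧ (∀ i, 1 ≤ N i) ∧
      (∀ a b : Fin d → ℕ, (∀ i, a i < N i) → (∀ i, b i < N i) →
        ∑ i, a i • v i = ∑ i, b i • v i → a = b) ∧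
      (∀ i, ∏ j, N j ≤ (A i).card) ∧
      ∀ i, ∃ T : Finset Γ,
        (T.card : ℝ) ≤ (2 * K) ^ (163 * (900 / ε) ^ (4 * ⌈3000 / ε⌉₊) *
          (1 + Real.log (1 + Real.log (2 * K)) / Real.log s)) ∧
        ∀ a ∈ A i, ∃ t ∈ T, ∃ n : Fin d → ℕ, (∀ i, n i < N i) ∧ a = t + ∑ i, n i • v i := by
  classical
  have hm : 2 ≤ m := hs.trans hsm
  have hK0 : 0 < K := by linarith
  have h2K : (0 : ℝ) < 2 * K := by linarith
  have h2K1 : (1 : ℝ) ≤ 2 * K := by linarith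
  have hne : Nonempty (Fin m) := ⟨⟨0, by omega⟩⟩
  obtain ⟨i₀, hi₀⟩ := exists_good_all hm A hA hK h
  obtain ⟨i₁, -, hi₁⟩ := exists_min_image (univ : Finset (Fin m)) (fun i => (A i).card)
    univ_nonempty
  obtain ⟨c, hc⟩ : ∃ c : ℝ, c = 1 + (s : ℝ) / ((m : ℝ) - 1) := ⟨_, rfl⟩
  obtain ⟨hc0, hc3⟩ := expo_le hm hsm
  have hc1 : 1 ≤ c := by rw [hc]; linarith
  rw [← hc] at hc3
  have hmono : ∀ i, (A i).card ≤ (∑ j, A j).card := by
    intro i
    have := Pool.Agent.Q130.HE.card_sum_mono (s := {i}) (t := univ) (subset_univ _) A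
      (fun i _ => hA i)
    rwa [sum_singleton] at this
  have hAS : ((A i₀).card : ℝ) ≤ K * (A i₁).card := by
    have h2 : ((A i₀).card : ℝ) ≤ (∑ j, A j).card := by exact_mod_cast hmono i₀
    exact h2.trans (h i₁)
  have hi₀' := hi₀ s
  rw [← hc] at hi₀'
  obtain ⟨d, v, N, T, hd, hN1, hprop, hvol, hT, hcov⟩ := upperR htf h0 h1 hs (hA i₀) (L := K ^ c)
    hi₀' (S := (A i₁).card) (hA i₁).card_pos hK hAS
  obtain ⟨C, hC⟩ : ∃ C : ℝ, C = (900 / ε) ^ (4 * ⌈3000 / ε⌉₊) := ⟨_, rfl⟩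
  have hC900 : 900 ≤ C := by rw [hC]; exact C_ge h0 h1
  obtain ⟨μ, hμ⟩ : ∃ μ : ℝ, μ = Real.log (1 + Real.log (2 * K)) / Real.log s := ⟨_, rfl⟩
  have hsR : (2 : ℝ) ≤ s := by exact_mod_cast hs
  have hlogs : 0 < Real.log s := Real.log_pos (by linarith)
  have hμ0 : 0 ≤ μ := by
    rw [hμ]
    refine div_nonneg (Real.log_nonneg ?_) hlogs.le
    have := Real.log_nonneg h2K1
    linarith
  have hT2 : (T.card : ℝ) ≤ (2 * K) ^ (81 * C * (1 + μ) + 1) := by
    have h3 := pow_le_three hK hc1 hc3 hs (C := C) (by linarith)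
    rw [← hμ] at h3
    rw [← hC] at hT
    have h4 : K ≤ (2 * K) ^ (1 : ℝ) := by rw [Real.rpow_one]; linarith
    calc (T.card : ℝ) ≤ _ := hT
      _ ≤ (2 * K) ^ (81 * C * (1 + μ)) * (2 * K) ^ (1 : ℝ) :=
          mul_le_mul h3 h4 hK0.le (by positivity)
      _ = _ := (Real.rpow_add h2K _ _).symm
  -- the differences
  obtain ⟨E, hE, hEcov⟩ := diff_cover v N
  have hdR : (2 : ℝ) ^ d ≤ (2 * K) ^ (13 : ℝ) := by
    have hKc : (1 : ℝ) ≤ K ^ c := Real.one_le_rpow hK (by linarith)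
    have hKc3 : K ^ c ≤ K ^ 3 := by
      have := Real.rpow_le_rpow_of_exponent_le hK hc3
      rwa [show (3 : ℝ) = ((3 : ℕ) : ℝ) by norm_num, Real.rpow_natCast] at this
    have h3 := dim_le h0 h1 hs hKc hd
    have hlog2 := Real.log_two_gt_d9
    have hlog2' := Real.log_two_lt_d9
    obtain ⟨l, hl⟩ : ∃ l : ℝ, l = Real.log (2 * K) := ⟨_, rfl⟩
    have hl1 : Real.log 2 ≤ l := by
      rw [hl]; exact Real.log_le_log (by norm_num) (by linarith)
    have h4 : Real.log (2 * K ^ c) ≤ 3 * l := by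
      have h2 : Real.log (2 * K ^ c) ≤ Real.log ((2 * K) ^ 3) := by
        refine Real.log_le_log (by linarith) ?_
        nlinarith
      rw [Real.log_pow, ← hl] at h2
      exact_mod_cast h2
    have hM1 : Real.log 2 ≤ Real.log s := Real.log_le_log (by norm_num) hsR
    have h5 : Real.log (2 * K ^ c) / Real.log s * Real.log 2 ≤ 3 * l := by
      rw [div_mul_eq_mul_div, div_le_iff₀ hlogs]
      have h6 : 0 ≤ Real.log (2 * K ^ c) := Real.log_nonneg (by linarith)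
      nlinarith
    rw [Real.rpow_def_of_pos h2K, ← hl, ← Real.exp_log (show (0 : ℝ) < 2 ^ d by positivity),
      Real.log_pow]
    refine Real.exp_le_exp.2 ?_
    calc (d : ℝ) * Real.log 2 ≤ (1 + 4 * (Real.log (2 * K ^ c) / Real.log s)) * Real.log 2 :=
          mul_le_mul_of_nonneg_right h3 (by linarith)
      _ = Real.log 2 + 4 * (Real.log (2 * K ^ c) / Real.log s * Real.log 2) := by ring
      _ ≤ l + 4 * (3 * l) := by linarith
      _ = l * 13 := by ring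
  refine ⟨d, v, N, ?_, hN1, hprop, fun i => hvol.trans (hi₁ i (mem_univ i)), fun i => ?_⟩
  · rw [logb_pow' hK] at hd
    rw [← hc]
    exact hd
  by_cases hii : i = i₀
  · subst hii
    refine ⟨T, ?_, hcov⟩
    rw [← hC, ← hμ]
    refine hT2.trans (Real.rpow_le_rpow_of_exponent_le h2K1 ?_)
    nlinarith
  · have h3 : ((A i + A i₀).card : ℝ) ≤ K * (A i₀).card := by
      refine le_trans ?_ (h i₀)
      have h4 := Pool.Agent.Q130.HE.card_sum_mono (s := {i, i₀}) (t := univ) (subset_univ _) A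
        (fun i _ => hA i)
      rw [sum_pair hii] at h4
      exact_mod_cast h4
    obtain ⟨X, _, hXc, hXcov⟩ := Finset.ruzsa_covering_add (hA i₀) h3
    refine ⟨(X ×ˢ ((T ×ˢ T) ×ˢ E)).image fun p => p.1 + (p.2.1.1 - p.2.1.2) + p.2.2, ?_, ?_⟩
    · have h5 : ((((X ×ˢ ((T ×ˢ T) ×ˢ E)).image
          fun p => p.1 + (p.2.1.1 - p.2.1.2) + p.2.2).card : ℕ) : ℝ) ≤
          X.card * ((T.card * T.card) * E.card) := by
        have h6 := card_image_le (s := X ×ˢ ((T ×ˢ T) ×ˢ E))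
          (f := fun p : Γ × ((Γ × Γ) × Γ) => p.1 + (p.2.1.1 - p.2.1.2) + p.2.2)
        rw [card_product, card_product, card_product] at h6
        exact_mod_cast h6
      have h7 : (E.card : ℝ) ≤ (2 * K) ^ (13 : ℝ) := by
        refine le_trans ?_ hdR
        exact_mod_cast hE
      have h8 : (X.card : ℝ) ≤ (2 * K) ^ (1 : ℝ) := by
        rw [Real.rpow_one]
        linarith
      rw [← hC, ← hμ]
      calc ((((X ×ˢ ((T ×ˢ T) ×ˢ E)).image
            fun p => p.1 + (p.2.1.1 - p.2.1.2) + p.2.2).card : ℕ) : ℝ)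
          ≤ X.card * ((T.card * T.card) * E.card) := h5
        _ ≤ (2 * K) ^ (1 : ℝ) * (((2 * K) ^ (81 * C * (1 + μ) + 1) *
            (2 * K) ^ (81 * C * (1 + μ) + 1)) * (2 * K) ^ (13 : ℝ)) := by
            gcongr
        _ = (2 * K) ^ (1 + ((81 * C * (1 + μ) + 1) + (81 * C * (1 + μ) + 1) + 13)) := by
            rw [← Real.rpow_add h2K, ← Real.rpow_add h2K, ← Real.rpow_add h2K]
        _ ≤ (2 * K) ^ (163 * C * (1 + μ)) := by
            refine Real.rpow_le_rpow_of_exponent_le h2K1 ?_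
            nlinarith
    · intro a ha
      obtain ⟨x, hx, y, hy, e⟩ := Finset.mem_add.1 (hXcov ha)
      obtain ⟨b, hb, c, hc, e'⟩ := Finset.mem_sub.1 hy
      obtain ⟨t, ht, n, hn, e₁⟩ := hcov b hb
      obtain ⟨t', ht', n', hn', e₂⟩ := hcov c hc
      obtain ⟨f, hf, q, hq, e₃⟩ := hEcov n n' hn hn'
      refine ⟨x + (t - t') + f, mem_image.2 ⟨(x, ((t, t'), f)),
        mk_mem_product hx (mk_mem_product (mk_mem_product ht ht') hf), rfl⟩, q, hq, ?_⟩
      rw [← e, ← e', e₁, e₂, add_sub_add_comm, e₃]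
      abel

/-- **Linear images.** -/
theorem images {Γ : Type u} [AddCommGroup Γ] [DecidableEq Γ]
    (htf : ∀ (n : ℕ) (x : Γ), n ≠ 0 → n • x = 0 → x = 0) {ε : ℝ} (h0 : 0 < ε) (h1 : ε ≤ 1)
    {m s : ℕ} (hs : 2 ≤ s) (hsm : s ≤ m) {K : ℝ} (hK : 1 ≤ K) {G' : Type*} [AddCommGroup G']
    [DecidableEq G'] (φ : Fin m → Γ →+ G') (hφ : ∀ i, Function.Injective (φ i)) {A : Finset Γ}
    (hA : A.Nonempty) (h : ((∑ j, A.image (φ j)).card : ℝ) ≤ K * A.card) :
    ∃ (d : ℕ) (v : Fin d → Γ) (N : Fin d → ℕ) (T : Finset Γ),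
      (d : ℝ) ≤ max 1 ((1 + ε) * ((1 + (s : ℝ) / ((m : ℝ) - 1)) *
        (Real.logb 2 K / Nat.log 2 s)) + ε) ∧ (∀ i, 1 ≤ N i) ∧
      (∀ a b : Fin d → ℕ, (∀ i, a i < N i) → (∀ i, b i < N i) →
        ∑ i, a i • v i = ∑ i, b i • v i → a = b) ∧
      ∏ j, N j ≤ A.card ∧
      (T.card : ℝ) ≤ (2 * K) ^ (81 * (900 / ε) ^ (4 * ⌈3000 / ε⌉₊) *
          (1 + Real.log (1 + Real.log (2 * K)) / Real.log s)) ∧
      ∀ a ∈ A, ∃ t ∈ T, ∃ n : Fin d → ℕ, (∀ i, n i < N i) ∧ a = t + ∑ i, n i • v i := by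
  classical
  have hm : 2 ≤ m := hs.trans hsm
  have hc : ∀ i, (A.image (φ i)).card = A.card := fun i => card_image_of_injective _ (hφ i)
  obtain ⟨i, hi⟩ := exists_good_all hm (fun i => A.image (φ i))
    (fun i => hA.image _) hK (by
      intro i
      rw [hc i]
      exact h)
  have hi' := hi s
  rw [hc i, Pool.Agent.Q130.HE.sums_image, card_image_of_injective _ (hφ i)] at hi'
  obtain ⟨c, hc'⟩ : ∃ c : ℝ, c = 1 + (s : ℝ) / ((m : ℝ) - 1) := ⟨_, rfl⟩
  obtain ⟨hc0, hc3⟩ := expo_le hm hsm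
  have hc1 : 1 ≤ c := by rw [hc']; linarith
  rw [← hc'] at hc3 hi' ⊢
  obtain ⟨d, v, N, T, hd, hN1, hprop, hvol, hT, hcov⟩ := upper htf h0 h1 hs hA (L := K ^ c) hi'
  refine ⟨d, v, N, T, ?_, hN1, hprop, hvol, ?_, hcov⟩
  · rw [logb_pow' hK] at hd
    exact hd
  · exact hT.trans (pow_le_three hK hc1 hc3 hs ((by norm_num : (0 : ℝ) ≤ 900).trans (C_ge h0 h1)))

/-- The loss for the dimensions of the energy theorem. -/
theorem energy_loss {m : ℕ} (hm : 2 ≤ m) {K : ℝ} (hK : 1 ≤ K) {d : ℕ}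
    (hd : (d : ℝ) ≤ 330000 * (1 + Real.log K / Real.log m)) :
    (6400000000 * ((d : ℝ) + 1) ^ 3) ^ d ≤
      (2 * K) ^ ((10 : ℝ) ^ 9 * (1 + Real.log (1 + Real.log (2 * K)) / Real.log m)) := by
  have hmR : (2 : ℝ) ≤ m := by exact_mod_cast hm
  have hlogm : 0 < Real.log m := Real.log_pos (by linarith)
  have h1 : Real.log K / Real.log m ≤ Real.log (2 * K) / Real.log m :=
    div_le_div_of_nonneg_right (Real.log_le_log (by linarith) (by linarith)) hlogm.le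
  have h2 := loss_le hm hK (by norm_num : (4 : ℝ) ≤ 330000) (d := d) (by linarith)
  refine h2.trans (Real.rpow_le_rpow_of_exponent_le (by linarith) ?_)
  have h3 : Real.log 330000 ≤ 14 := by
    have h4 : Real.log 330000 ≤ Real.log ((2 : ℝ) ^ 19) :=
      Real.log_le_log (by norm_num) (by norm_num)
    rw [Real.log_pow] at h4
    have h5 := Real.log_two_lt_d9
    push_cast at h4
    linarith
  have h4 : 0 ≤ 1 + Real.log (1 + Real.log (2 * K)) / Real.log m := by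
    have h5 : 0 ≤ Real.log (1 + Real.log (2 * K)) / Real.log m := by
      refine div_nonneg (Real.log_nonneg ?_) hlogm.le
      have := Real.log_nonneg (show (1 : ℝ) ≤ 2 * K by linarith)
      linarith
    linarith
  refine mul_le_mul_of_nonneg_right ?_ h4
  nlinarith

/-- **Energies.** -/
theorem energy {Γ : Type u} [AddCommGroup Γ] [DecidableEq Γ]
    (htf : ∀ (n : ℕ) (x : Γ), n ≠ 0 → n • x = 0 → x = 0)
    {m : ℕ} (hm : 2 ≤ m) {K : ℝ} (hK : 1 ≤ K) {G' : Type*} [AddCommGroup G'] [DecidableEq G']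
    (φ : Fin m → Γ →+ G') (hφ : ∀ i, Function.Injective (φ i)) {A : Finset Γ} (hA : A.Nonempty)
    (hE : (A.card : ℝ) ^ (2 * m - 1) ≤
      K * ((((Fintype.piFinset fun _ : Fin m => A) ×ˢ (Fintype.piFinset fun _ : Fin m => A)).filter
        fun p => ∑ i, φ i (p.1 i) = ∑ i, φ i (p.2 i)).card : ℝ)) :
    ∃ (d : ℕ) (v : Fin d → Γ) (N : Fin d → ℕ) (t : Γ),
      (d : ℝ) ≤ 330000 * (1 + Real.log K / Real.log m) ∧ (∀ i, 1 ≤ N i) ∧
      (∀ a b : Fin d → ℕ, (∀ i, a i < N i) → (∀ i, b i < N i) →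
        ∑ i, a i • v i = ∑ i, b i • v i → a = b) ∧
      ∏ j, N j ≤ A.card ∧
      (A.card : ℝ) ≤ (2 * K) ^ (2 * (10 : ℝ) ^ 9 *
          (1 + Real.log (1 + Real.log (2 * K)) / Real.log m)) *
        (({a | a ∈ A ∧ ∃ n : Fin d → ℕ, (∀ i, n i < N i) ∧ a = t + ∑ i, n i • v i} :
          Set Γ).ncard : ℝ) := by
  classical
  have h2K : (0 : ℝ) < 2 * K := by linarith
  obtain ⟨d, B, ψ, t, hd, hB, hvol, hbig⟩ := Pool.Agent.Q130.HE.part1 htf hK hm φ hφ hA hE
  have hB' : Body B := ⟨hB.conv, hB.comp, hB.inter, hB.symm⟩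
  obtain ⟨k, v, N, F, hk, hN1, hprop, hNv, hF, hcov⟩ := cover_nat hB' ψ hA.card_pos hvol
  obtain ⟨A', hA'⟩ : ∃ A' : Finset Γ,
      A' = A.filter fun a => ∃ c ∈ Pool.Agent.TH198.DC.LP B, a = t + ψ c := ⟨_, rfl⟩
  have hA'c : ({a | a ∈ A ∧ ∃ c ∈ Pool.Agent.TH198.DC.LP B, a = t + ψ c} : Set Γ).ncard =
      A'.card := by
    rw [← Set.ncard_coe_finset, hA']
    congr 1
    ext y
    simp
  rw [hA'c] at hbig
  have hApos : (0 : ℝ) < A.card := by exact_mod_cast hA.card_pos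
  have hA'ne : A'.Nonempty := by
    rw [← card_pos]
    by_contra hcon
    have h3 : A'.card = 0 := by omega
    rw [h3, Nat.cast_zero, mul_zero] at hbig
    linarith
  obtain ⟨f, hf, hfc⟩ := H112.cover_pigeonhole hA'ne (T := F)
    (fun f a => ∃ n : Fin k → ℕ, (∀ i, n i < N i) ∧ a = t + f + ∑ i, n i • v i) (by
      intro a ha
      rw [hA'] at ha
      obtain ⟨_, c, hc, e⟩ := mem_filter.1 ha
      obtain ⟨f, hf, n, hn, e'⟩ := hcov c hc
      exact ⟨f, hf, n, hn, by rw [e, e', add_assoc]⟩)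
  refine ⟨k, v, N, t + f, ?_, hN1, hprop, hNv, ?_⟩
  · refine le_trans ?_ hd
    exact_mod_cast hk
  · have hsub : (A'.filter fun a => ∃ n : Fin k → ℕ, (∀ i, n i < N i) ∧
        a = t + f + ∑ i, n i • v i).card ≤
        ({a | a ∈ A ∧ ∃ n : Fin k → ℕ, (∀ i, n i < N i) ∧ a = t + f + ∑ i, n i • v i} :
          Set Γ).ncard := by
      rw [← Set.ncard_coe_finset]
      refine Set.ncard_le_ncard ?_ (A.finite_toSet.subset fun a ha => ha.1)
      intro a ha
      rw [mem_coe, mem_filter, hA', mem_filter] at ha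
      exact ⟨ha.1.1, ha.2⟩
    have h3 : (A'.card : ℝ) ≤ F.card *
        (({a | a ∈ A ∧ ∃ n : Fin k → ℕ, (∀ i, n i < N i) ∧ a = t + f + ∑ i, n i • v i} :
          Set Γ).ncard : ℝ) := by
      exact_mod_cast hfc.trans (Nat.mul_le_mul_left _ hsub)
    have h4 := energy_loss hm hK hd
    obtain ⟨μ, hμ⟩ : ∃ μ : ℝ, μ = Real.log (1 + Real.log (2 * K)) / Real.log m := ⟨_, rfl⟩
    have hex : Pool.Agent.Q130.HE.ex K m = (10 : ℝ) ^ 9 * (1 + μ) := by
      rw [hμ]; rfl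
    rw [hex] at hbig
    rw [← hμ] at h4 ⊢
    have h5 : (F.card : ℝ) ≤ (2 * K) ^ ((10 : ℝ) ^ 9 * (1 + μ)) := hF.trans h4
    have h6 : (2 * K) ^ (2 * (10 : ℝ) ^ 9 * (1 + μ)) =
        (2 * K) ^ ((10 : ℝ) ^ 9 * (1 + μ)) * (2 * K) ^ ((10 : ℝ) ^ 9 * (1 + μ)) := by
      rw [← Real.rpow_add h2K]
      congr 1
      ring
    rw [h6, mul_assoc]
    refine hbig.trans (mul_le_mul_of_nonneg_left ?_ (by positivity))
    exact h3.trans (mul_le_mul_of_nonneg_right h5 (Nat.cast_nonneg _))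

end Pool.Agent.Q221.GP
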